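import Pool.Agent.Helper49.Agr.Global

/-!
# Agrawal's conjecture for `n` with a prime factor `p > n^(1/4)` and `r ≥ √(8 n / p)`

For such `n` it holds in particular for all `r` with `r² ≥ 8 n^(3/4)`.
-/

set_option autoImplicit false

namespace Pool.Agent.Kept.MP_2867b3_nt.LargePrimeFactor

/-- Let `n, r` be coprime positive integers such that `(X - 1) ^ n ≡ X ^ n - 1` modulo
`(n, X ^ r - 1)`, and suppose that `n` has a prime factor `p` with `n < p ^ 4` and either
`8 n ≤ p r²`, or `3 (k + 1) < p` and `2 k + 4 ≤ r` where `k = ⌊n / (p r)⌋`.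
Then `n` is prime or `n² ≡ 1` modulo `r`. -/
theorem result :
    ∀ n r p : ℕ, 0 < n → 0 < r → Nat.Coprime n r →
      ((Polynomial.X ^ r - 1 : Polynomial (ZMod n)) ∣
          (Polynomial.X - 1) ^ n - (Polynomial.X ^ n - 1)) →
      p.Prime → p ∣ n → n < p ^ 4 →
      (8 * n ≤ p * r ^ 2 ∨ (3 * (n / (p * r) + 1) < p ∧ 2 * (n / (p * r)) + 4 ≤ r)) →
      n.Prime ∨ Nat.ModEq r (n ^ 2) 1 := by
  intro n r p hn hr hcop h hp hpn h4 h8
  rcases h8 with h8 | ⟨h3, h2⟩
  · exact Pool.Agent.Helper49.Agr.large_prime hn hr hcop h hp hpn h4 h8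
  · exact Pool.Agent.Helper49.Agr.large_prime' hn hcop h hp hpn h4 h3 h2

end Pool.Agent.Kept.MP_2867b3_nt.LargePrimeFactor
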