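import Pool.Agent.AKX.Final

/-!
# One AKS congruence with `r` of the order of `log² n` excludes `n` with a large prime factor

`ℓ` is an odd prime factor of `r` (for example `r` itself).  For `i = 1` (automatic if `(ℓ - 1) / 2` is a
prime and `n² ≢ 1` modulo `ℓ`) the conditions are `3 log (n / p) log p ≤ ℓ` and `ℓ ≤ 13 (log p)²` (or
`ℓ ≤ 12 (log p)³ / log (n / p)`, which is more if `n / p` is small); there are such `ℓ` if `n ≤ p ^ 5`.
-/

set_option autoImplicit false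

namespace Pool.Agent.Kept.MP_2867b3_nt.LogSquaredRange

/-- Let `ℓ` be an odd prime factor of `r` which does not divide `n`, let `p ≥ 10 ^ 20` be a prime factor of
`n`, `n` not a power of `p`, and let `i` be the index in `(ℤ/ℓ)ˣ` of the subgroup generated by
`-1`, `n`, `p`.  If `3 i log (n / p) log p ≤ ℓ`, and `ℓ ≤ 13 (log p)²` or
`i log (n / p) ℓ ≤ 12 (log p)³`, then `(X - 1) ^ n` and `X ^ n - 1` are not congruent modulo
`(n, X ^ r - 1)`. -/
theorem result :
    ∀ (n r l p i : ℕ), l ∣ r → l.Prime → l ≠ 2 → ∀ (hn : n.Coprime l), p.Prime →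
      ∀ (hp : p.Coprime l), p ∣ n → (∀ j : ℕ, n ≠ p ^ j) → 10 ^ 20 ≤ p →
      i = (Subgroup.closure
        {-1, ZMod.unitOfCoprime n hn, ZMod.unitOfCoprime p hp} : Subgroup (ZMod l)ˣ).index →
      3 * (i : ℝ) * Real.log ((n : ℝ) / p) * Real.log p ≤ l →
      ((l : ℝ) ≤ 13 * Real.log p ^ 2 ∨
        (i : ℝ) * Real.log ((n : ℝ) / p) * l ≤ 12 * Real.log p ^ 3) →
      ¬ ((Polynomial.X ^ r - 1 : Polynomial (ZMod n)) ∣
          (Polynomial.X - 1) ^ n - (Polynomial.X ^ n - 1)) := by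
  intro n r l p i hlr hl hl2 hn hp hpl hpn hpow hp20 hi h1 h2 h
  refine AKX.final hl hl2 hn hp hpl hpn hpow hp20 hi h1 h2 (dvd_trans ?_ h)
  obtain ⟨k, rfl⟩ := hlr
  rw [pow_mul]
  simpa only [one_pow] using sub_dvd_pow_sub_pow (Polynomial.X ^ l : Polynomial (ZMod n)) 1 k

end Pool.Agent.Kept.MP_2867b3_nt.LogSquaredRange
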