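import Pool.Agent.Helper49.Agr.Global

/-!
# Agrawal's conjecture for `n` with three prime factors `p ≥ 8 n / r²`
-/

set_option autoImplicit false

namespace Pool.Agent.Kept.MP_2867b3_nt.ThreePrimes

/-- Let `n, r` be coprime positive integers such that `(X - 1) ^ n ≡ X ^ n - 1` modulo
`(n, X ^ r - 1)`.  If at least three prime factors `p` of `n` satisfy `8 n ≤ p r²`, then
`n² ≡ 1` modulo `r`. -/
theorem result :
    ∀ n r : ℕ, 0 < n → 0 < r → Nat.Coprime n r →
      ((Polynomial.X ^ r - 1 : Polynomial (ZMod n)) ∣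
          (Polynomial.X - 1) ^ n - (Polynomial.X ^ n - 1)) →
      3 ≤ (n.primeFactors.filter (fun p => 8 * n ≤ p * r ^ 2)).card →
      Nat.ModEq r (n ^ 2) 1 := by
  intro n r hn hr hcop h h3
  obtain ⟨p, hp, q, hq, t, ht, hpq, hpt, hqt⟩ := Finset.two_lt_card.1 (by omega :
    2 < (n.primeFactors.filter (fun p => 8 * n ≤ p * r ^ 2)).card)
  simp only [Finset.mem_filter, Nat.mem_primeFactors] at hp hq ht
  exact Pool.Agent.Helper49.Agr.three_primes hn hr hcop h hp.1.1 hq.1.1 ht.1.1 hpq hpt hqt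
    hp.1.2.1 hq.1.2.1 ht.1.2.1 hp.2 hq.2 ht.2

end Pool.Agent.Kept.MP_2867b3_nt.ThreePrimes
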